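import Mathlib

/-! The column functional `F0` on multigraphs and its locality (Cw).
Vertices `Fin (m+1)`, edges `e : ι → V × V`, `card ι + 2 = m + 1`, `5 ≤ m + 1`. -/

set_option autoImplicit false
set_option linter.unusedSectionVars false

namespace Pool.Agent.NFB28

open Finset

/-- mod 2 a sum of monomials over the cube only sees the full monomial -/
theorem sum_prod_eq {V κ : Type} [Fintype V] [DecidableEq V] [Fintype κ] (g : κ → V) :
    (∑ a : V → ZMod 2, ∏ k, a (g k)) = if Function.Surjective g then 1 else 0 := by
  classical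
  split_ifs with h
  · rw [Finset.sum_eq_single (fun _ => (1 : ZMod 2))]
    · simp
    · intro a _ ha
      obtain ⟨v, hv⟩ : ∃ v, a v ≠ 1 := by
        by_contra hc
        push Not at hc
        exact ha (funext hc)
      obtain ⟨k, hk⟩ := h v
      apply Finset.prod_eq_zero (Finset.mem_univ k)
      rw [hk]
      revert hv
      generalize a v = t
      revert t
      decide
    · simp
  · obtain ⟨v0, hv0⟩ : ∃ v, ∀ k, g k ≠ v := by
      by_contra hc
      push Not at hc
      exact h hc
    refine Finset.sum_involution (fun a _ => Function.update a v0 (a v0 + 1)) ?_ ?_ ?_ ?_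
    · intro a _
      have : ∀ k, Function.update a v0 (a v0 + 1) (g k) = a (g k) := fun k =>
        Function.update_of_ne (hv0 k) _ _
      simp only [this]
      exact CharTwo.add_self_eq_zero _
    · intro a _ _ h2
      have := congrFun h2 v0
      simp at this
    · intro a _
      exact Finset.mem_univ _
    · intro a _
      funext v
      by_cases hv : v = v0
      · subst hv
        simp only [Function.update_self]
        rw [add_assoc, CharTwo.add_self_eq_zero, add_zero]
      · simp [Function.update_of_ne hv]

/-- the same on the subcube `z v = 0` off a set `A` -/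
theorem sum_prod_sub {V κ : Type} [Fintype V] [DecidableEq V] [Fintype κ] (A : Finset V)
    (g : κ → V) :
    (∑ z ∈ (univ : Finset (V → ZMod 2)).filter (fun z => ∀ v, v ∉ A → z v = 0), ∏ k, z (g k))
      = if (∀ v, v ∈ A ↔ ∃ k, g k = v) then 1 else 0 := by
  classical
  split_ifs with h
  · rw [Finset.sum_eq_single (fun v => if v ∈ A then (1 : ZMod 2) else 0)]
    · apply Finset.prod_eq_one
      intro k _
      exact if_pos ((h _).2 ⟨k, rfl⟩)
    · intro a ha hne
      rw [Finset.mem_filter] at ha
      obtain ⟨v, hv⟩ : ∃ v, a v ≠ (if v ∈ A then (1 : ZMod 2) else 0) := by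
        by_contra hc
        push Not at hc
        exact hne (funext hc)
      have hvA : v ∈ A := by
        by_contra hvA
        rw [if_neg hvA] at hv
        exact hv (ha.2 v hvA)
      obtain ⟨k, hk⟩ := (h v).1 hvA
      apply Finset.prod_eq_zero (Finset.mem_univ k)
      rw [hk]
      rw [if_pos hvA] at hv
      revert hv
      generalize a v = t
      revert t
      decide
    · intro hnot
      exfalso
      apply hnot
      rw [Finset.mem_filter]
      exact ⟨Finset.mem_univ _, fun v hv => by simp [hv]⟩
  · by_cases h1 : ∃ k, g k ∉ A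
    · obtain ⟨k, hk⟩ := h1
      apply Finset.sum_eq_zero
      intro z hz
      rw [Finset.mem_filter] at hz
      exact Finset.prod_eq_zero (Finset.mem_univ k) (hz.2 _ hk)
    · push Not at h1
      obtain ⟨v0, hvA, hv0⟩ : ∃ v, v ∈ A ∧ ∀ k, g k ≠ v := by
        by_contra hc
        push Not at hc
        apply h
        intro v
        constructor
        · exact fun hv => hc v hv
        · rintro ⟨k, rfl⟩
          exact h1 k
      refine Finset.sum_involution (fun a _ => Function.update a v0 (a v0 + 1)) ?_ ?_ ?_ ?_
      · intro a _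
        have : ∀ k, Function.update a v0 (a v0 + 1) (g k) = a (g k) := fun k =>
          Function.update_of_ne (hv0 k) _ _
        simp only [this]
        exact CharTwo.add_self_eq_zero _
      · intro a _ _ h2
        have := congrFun h2 v0
        simp at this
      · intro a ha
        rw [Finset.mem_filter] at ha ⊢
        refine ⟨Finset.mem_univ _, fun v hv => ?_⟩
        have hne : v ≠ v0 := by
          rintro rfl
          exact hv hvA
        rw [Function.update_of_ne hne]
        exact ha.2 v hv
      · intro a _
        funext v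
        by_cases hv : v = v0
        · subst hv
          simp only [Function.update_self]
          rw [add_assoc, CharTwo.add_self_eq_zero, add_zero]
        · simp [Function.update_of_ne hv]

section core

variable {V κ : Type} [Fintype V] [DecidableEq V] [Fintype κ] [DecidableEq κ]

/-- chosen endpoint -/
def pc (e : κ → V × V) (φ : κ → Bool) (k : κ) : V := if φ k then (e k).1 else (e k).2
/-- other endpoint -/
def qc (e : κ → V × V) (φ : κ → Bool) (k : κ) : V := if φ k then (e k).2 else (e k).1

/-- number of edges at `v` -/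
def deg (e : κ → V × V) (v : V) : ℕ :=
  (univ.filter fun k => (e k).1 = v ∨ (e k).2 = v).card

theorem expand (e : κ → V × V) (a z : V → ZMod 2) :
    (∏ k, (a (e k).1 * z (e k).2 + a (e k).2 * z (e k).1))
      = ∑ φ : κ → Bool, ∏ k, (a (pc e φ k) * z (qc e φ k)) := by
  classical
  have h : ∀ k, (a (e k).1 * z (e k).2 + a (e k).2 * z (e k).1)
      = ∑ b : Bool, (a (if b then (e k).1 else (e k).2) * z (if b then (e k).2 else (e k).1)) := by
    intro k
    simp
  simp only [h]
  rw [Finset.prod_univ_sum, Fintype.piFinset_univ]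
  rfl

theorem expand1 (e : κ → V × V) (a : V → ZMod 2) :
    (∏ k, (a (e k).1 + a (e k).2))
      = ∑ φ : κ → Bool, ∏ k, a (pc e φ k) := by
  have := expand e a (fun _ => 1)
  simpa using this

/-- three marked vertices and a choice -/
def mk3 (x y t : V) (g : κ → V) : Fin 3 ⊕ κ → V := Sum.elim ![x, y, t] g

theorem prod_mk3 (x y t : V) (g : κ → V) (a : V → ZMod 2) :
    (∏ s, a (mk3 x y t g s)) = a x * a y * a t * ∏ k, a (g k) := by
  rw [Fintype.prod_sum_type]
  simp [mk3, Fin.prod_univ_three]

/-- the determinant `D_x` written as a Ryser sum -/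
def Dx (e : κ → V × V) (x y t : V) : ZMod 2 :=
  ∑ a : V → ZMod 2, a x * a y * a t * ∏ k, (a (e k).1 + a (e k).2)

theorem Dx_expand (e : κ → V × V) (x y t : V) :
    Dx e x y t = ∑ φ : κ → Bool,
      if Function.Surjective (mk3 x y t (pc e φ)) then 1 else 0 := by
  unfold Dx
  simp only [expand1, Finset.mul_sum]
  rw [Finset.sum_comm]
  apply Finset.sum_congr rfl
  intro φ _
  rw [← sum_prod_eq]
  apply Finset.sum_congr rfl
  intro a _
  rw [prod_mk3]

theorem deg_split (e : κ → V × V) (he : ∀ k, (e k).1 ≠ (e k).2) (φ : κ → Bool) (v : V) :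
    deg e v = (univ.filter fun k => pc e φ k = v).card
      + (univ.filter fun k => qc e φ k = v).card := by
  unfold deg
  rw [← Finset.card_union_of_disjoint]
  · congr 1
    ext k
    simp only [Finset.mem_filter, Finset.mem_univ, true_and, Finset.mem_union]
    simp only [pc, qc]
    by_cases h : φ k
    · simp [h]
    · simp only [if_neg h]
      exact or_comm
  · rw [Finset.disjoint_filter]
    intro k _ h1 h2
    apply he k
    simp only [pc] at h1
    simp only [qc] at h2
    by_cases h : φ k
    · rw [if_pos h] at h1 h2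
      rw [h1, h2]
    · rw [if_neg h] at h1 h2
      rw [h1, h2]

/-- the set `S_x` -/
def Sx (e : κ → V × V) (x y t : V) : Finset V :=
  univ.filter fun v => if v = x ∨ v = y ∨ v = t then 1 ≤ deg e v else 2 ≤ deg e v

theorem pc_count (e : κ → V × V) (x y t : V) (φ : κ → Bool)
    (hb : Function.Bijective (mk3 x y t (pc e φ))) (v : V) :
    (univ.filter fun k => pc e φ k = v).card = if v = x ∨ v = y ∨ v = t then 0 else 1 := by
  classical
  split_ifs with h
  · rw [Finset.card_eq_zero, Finset.filter_eq_empty_iff]
    intro k _ hk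
    have : ∃ i : Fin 3, mk3 x y t (pc e φ) (Sum.inl i) = v := by
      rcases h with h | h | h
      · exact ⟨0, by simp [mk3, h]⟩
      · exact ⟨1, by simp [mk3, h]⟩
      · exact ⟨2, by simp [mk3, h]⟩
    obtain ⟨i, hi⟩ := this
    have h2 : mk3 x y t (pc e φ) (Sum.inr k) = v := by simp [mk3, hk]
    have := hb.1 (hi.trans h2.symm)
    simp at this
  · push Not at h
    obtain ⟨s, hs⟩ := hb.2 v
    rcases s with i | k
    · exfalso
      fin_cases i
      · exact h.1 (by simpa [mk3] using hs.symm)
      · exact h.2.1 (by simpa [mk3] using hs.symm)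
      · exact h.2.2 (by simpa [mk3] using hs.symm)
    · rw [Finset.card_eq_one]
      refine ⟨k, ?_⟩
      ext k'
      simp only [Finset.mem_filter, Finset.mem_univ, true_and, Finset.mem_singleton]
      have hk : pc e φ k = v := by simpa [mk3] using hs
      constructor
      · intro h'
        have : mk3 x y t (pc e φ) (Sum.inr k') = mk3 x y t (pc e φ) (Sum.inr k) := by
          simp [mk3, h', hk]
        have := hb.1 this
        simpa using this
      · rintro rfl
        exact hk

theorem mem_Sx (e : κ → V × V) (he : ∀ k, (e k).1 ≠ (e k).2) (x y t : V) (φ : κ → Bool)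
    (hb : Function.Bijective (mk3 x y t (pc e φ))) (v : V) :
    v ∈ Sx e x y t ↔ ∃ k, qc e φ k = v := by
  classical
  have h1 := deg_split e he φ v
  rw [pc_count e x y t φ hb v] at h1
  have h2 : (∃ k, qc e φ k = v) ↔ 1 ≤ (univ.filter fun k => qc e φ k = v).card := by
    rw [Nat.one_le_iff_ne_zero, Finset.card_ne_zero]
    constructor
    · rintro ⟨k, hk⟩
      exact ⟨k, by simp [hk]⟩
    · rintro ⟨k, hk⟩
      exact ⟨k, by simpa using hk⟩
  rw [h2]
  unfold Sx
  simp only [Finset.mem_filter, Finset.mem_univ, true_and]
  split_ifs at h1 ⊢ with h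
  · omega
  · omega

/-- double counting -/
theorem double_count (e : κ → V × V) (he : ∀ k, (e k).1 ≠ (e k).2)
    (hc : Fintype.card κ + 3 = Fintype.card V) (A : Finset V) (x y t : V) :
    (∑ z ∈ (univ : Finset (V → ZMod 2)).filter (fun z => ∀ v, v ∉ A → z v = 0),
      ∑ a : V → ZMod 2, a x * a y * a t *
        ∏ k, (a (e k).1 * z (e k).2 + a (e k).2 * z (e k).1))
      = if Sx e x y t = A then Dx e x y t else 0 := by
  classical
  have hL : ∀ z : V → ZMod 2, (∑ a : V → ZMod 2, a x * a y * a t *
        ∏ k, (a (e k).1 * z (e k).2 + a (e k).2 * z (e k).1))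
      = ∑ φ : κ → Bool, (if Function.Surjective (mk3 x y t (pc e φ)) then 1 else 0)
          * ∏ k, z (qc e φ k) := by
    intro z
    simp only [expand, Finset.mul_sum]
    rw [Finset.sum_comm]
    apply Finset.sum_congr rfl
    intro φ _
    rw [← sum_prod_eq, Finset.sum_mul]
    apply Finset.sum_congr rfl
    intro a _
    rw [prod_mk3, Finset.prod_mul_distrib]
    ring
  simp only [hL]
  rw [Finset.sum_comm, Dx_expand]
  rw [show (if Sx e x y t = A then (∑ φ : κ → Bool,
      if Function.Surjective (mk3 x y t (pc e φ)) then (1 : ZMod 2) else 0) else 0)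
      = ∑ φ : κ → Bool, (if Function.Surjective (mk3 x y t (pc e φ)) then (1 : ZMod 2) else 0)
          * (if Sx e x y t = A then 1 else 0) by
    split_ifs <;> simp]
  apply Finset.sum_congr rfl
  intro φ _
  rw [← Finset.mul_sum, sum_prod_sub]
  by_cases hs : Function.Surjective (mk3 x y t (pc e φ))
  · rw [if_pos hs, one_mul, one_mul]
    have hb : Function.Bijective (mk3 x y t (pc e φ)) := by
      rw [Fintype.bijective_iff_surjective_and_card]
      refine ⟨hs, ?_⟩
      simp
      omega
    have hiff : (∀ v, v ∈ A ↔ ∃ k, qc e φ k = v) ↔ Sx e x y t = A := by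
      constructor
      · intro h
        ext v
        rw [mem_Sx e he x y t φ hb, h]
      · rintro rfl v
        exact mem_Sx e he x y t φ hb v
    simp only [hiff]
  · rw [if_neg hs, zero_mul, zero_mul]

/-- if `D_x ≠ 0` the three marked vertices are distinct and all others are covered -/
theorem Dx_ne (e : κ → V × V) (he : ∀ k, (e k).1 ≠ (e k).2)
    (hc : Fintype.card κ + 3 = Fintype.card V) (x y t : V) (hD : Dx e x y t ≠ 0) :
    x ≠ y ∧ x ≠ t ∧ y ≠ t ∧ ∀ v, v ≠ x → v ≠ y → v ≠ t → 1 ≤ deg e v := by
  classical
  rw [Dx_expand] at hD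
  obtain ⟨φ, -, hφ⟩ := Finset.exists_ne_zero_of_sum_ne_zero hD
  have hs : Function.Surjective (mk3 x y t (pc e φ)) := by
    by_contra h
    rw [if_neg h] at hφ
    exact hφ rfl
  have hb : Function.Bijective (mk3 x y t (pc e φ)) := by
    rw [Fintype.bijective_iff_surjective_and_card]
    refine ⟨hs, ?_⟩
    simp
    omega
  refine ⟨?_, ?_, ?_, ?_⟩
  · intro h
    have : mk3 x y t (pc e φ) (Sum.inl 0) = mk3 x y t (pc e φ) (Sum.inl 1) := by
      simp [mk3, h]
    have := hb.1 this
    simp at this
  · intro h
    have : mk3 x y t (pc e φ) (Sum.inl 0) = mk3 x y t (pc e φ) (Sum.inl 2) := by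
      simp [mk3, h]
    have := hb.1 this
    simp at this
  · intro h
    have : mk3 x y t (pc e φ) (Sum.inl 1) = mk3 x y t (pc e φ) (Sum.inl 2) := by
      simp [mk3, h]
    have := hb.1 this
    simp at this
  · intro v h1 h2 h3
    have h4 := deg_split e he φ v
    rw [pc_count e x y t φ hb v, if_neg (by tauto)] at h4
    omega

theorem sum_lowdeg (e : κ → V × V) (hc : Fintype.card κ + 3 = Fintype.card V) (x y : V) :
    (∑ a : V → ZMod 2, a x * a y * ∏ k, (a (e k).1 + a (e k).2)) = 0 := by
  classical
  simp only [expand1, Finset.mul_sum]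
  rw [Finset.sum_comm]
  apply Finset.sum_eq_zero
  intro φ _
  have h2 : ∀ a : V → ZMod 2, a x * a y * ∏ k, a (pc e φ k)
      = ∏ s, a ((Sum.elim ![x, y] (pc e φ) : Fin 2 ⊕ κ → V) s) := by
    intro a
    rw [Fintype.prod_sum_type]
    simp
  simp only [h2]
  rw [sum_prod_eq, if_neg]
  intro hs
  have := Fintype.card_le_of_surjective _ hs
  simp at this
  omega

/-- the hyperplane step -/
theorem hyper (e : κ → V × V) (hc : Fintype.card κ + 3 = Fintype.card V) (j w s s' : V) :
    (∑ a : V → ZMod 2, (a j + a w) * a s * a s' * ∏ k, (a (e k).1 + a (e k).2))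
      = Dx e w s j + Dx e w s' j := by
  classical
  have key : (∑ a : V → ZMod 2, ((a j + a w) * a s * a s' + a j * a w * (a s + a s'))
      * ∏ k, (a (e k).1 + a (e k).2)) = 0 := by
    set T : (V → ZMod 2) → ZMod 2 := fun a => ((a j + a w) * a s * a s' + a j * a w * (a s + a s'))
      * ∏ k, (a (e k).1 + a (e k).2) with hT
    have h1 : (∑ a, (1 + a j) * T a) = ∑ a, a j * T (a + 1) := by
      rw [← Equiv.sum_comp (Equiv.addRight (1 : V → ZMod 2))]
      apply Finset.sum_congr rfl
      intro a _
      simp only [Equiv.coe_addRight, Pi.add_apply, Pi.one_apply]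
      congr 1
      rw [add_comm (a j), ← add_assoc, CharTwo.add_self_eq_zero, zero_add]
    have h2 : (∑ a, T a) = (∑ a, a j * T a) + ∑ a, (1 + a j) * T a := by
      rw [← Finset.sum_add_distrib]
      apply Finset.sum_congr rfl
      intro a _
      rw [add_mul, one_mul, add_comm (T a), ← add_assoc, CharTwo.add_self_eq_zero, zero_add]
    rw [h2, h1, ← Finset.sum_add_distrib]
    have h3 : ∀ a : V → ZMod 2, a j * T a + a j * T (a + 1)
        = a j * a j * (∏ k, (a (e k).1 + a (e k).2)) + a j * a w * (∏ k, (a (e k).1 + a (e k).2))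
          + (a j * a s * (∏ k, (a (e k).1 + a (e k).2))
          + a j * a s' * (∏ k, (a (e k).1 + a (e k).2))) := by
      intro a
      have hP : (∏ k, ((a + 1) (e k).1 + (a + 1) (e k).2)) = ∏ k, (a (e k).1 + a (e k).2) := by
        apply Finset.prod_congr rfl
        intro k _
        simp only [Pi.add_apply, Pi.one_apply]
        generalize a (e k).1 = p
        generalize a (e k).2 = q
        revert p q
        decide
      simp only [hT]
      rw [hP]
      simp only [Pi.add_apply, Pi.one_apply]
      generalize (∏ k, (a (e k).1 + a (e k).2)) = P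
      generalize a j = p
      generalize a w = q
      generalize a s = r
      generalize a s' = r'
      revert P p q r r'
      decide
    simp only [h3, Finset.sum_add_distrib, sum_lowdeg e hc, add_zero]
  have h4 : (∑ a : V → ZMod 2, ((a j + a w) * a s * a s' + a j * a w * (a s + a s'))
      * ∏ k, (a (e k).1 + a (e k).2))
      = (∑ a : V → ZMod 2, (a j + a w) * a s * a s' * ∏ k, (a (e k).1 + a (e k).2))
        + (Dx e w s j + Dx e w s' j) := by
    unfold Dx
    rw [← Finset.sum_add_distrib, ← Finset.sum_add_distrib]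
    apply Finset.sum_congr rfl
    intro a _
    ring
  rw [h4] at key
  exact CharTwo.add_eq_zero.1 key

end core

end Pool.Agent.NFB28
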